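import Mathlib

/-!
# Monitoring edge-geodetic sets of permutation graphs: the mandatory vertices suffice

An edge `e` is monitored by the vertices `a`, `b` if they are joined by a path and every shortest
`a`-`b` path contains `e`.  A set `S` of vertices is an MEG set if every edge is monitored by two
vertices of `S`; `meg G` is the least size of an MEG set and a vertex is mandatory if it is in
every MEG set.  We prove that in a permutation graph the set of the mandatory vertices is an
MEG set, so that their number is `meg G`.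

Outline.  Place the vertex `i` at the point `(i, π(i))` of the plane; two vertices are adjacent if
they are incomparable in the product order.  If `a`, `b` monitor `e` and `b` is not mandatory, then
there is a neighbour `z` of `b`, farther from `a`, such that `a`, `z` monitor `e` (`extend`).  So a
pair of maximum distance among the pairs that monitor `e` consists of mandatory vertices.
For the extension: a vertex `b` that is not mandatory has for each of its neighbours `u` a neighbour
`z`, not adjacent to `u`, such that `b` is the only common neighbour of `u` and `z`; this is used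
for the highest vertex `Q` at distance less than `d(a, b)` from `a`, and then `z` is chosen as high
as possible.
-/

set_option autoImplicit false

namespace Pool.Agent.Results.MP_8e9d7b_co.MandatoryVertices

open SimpleGraph

variable {V : Type*}

/-- The edge `e` is monitored by `a` and `b`: they are joined by a walk and every shortest
`a`-`b` walk (path) contains `e`. -/
def Monitors (G : SimpleGraph V) (e : Sym2 V) (a b : V) : Prop :=
  G.Reachable a b ∧ ∀ p : G.Walk a b, p.length = G.dist a b → e ∈ p.edges

/-- `S` is a monitoring edge-geodetic set. -/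
def IsMEG (G : SimpleGraph V) (S : Finset V) : Prop :=
  ∀ e ∈ G.edgeSet, ∃ a ∈ S, ∃ b ∈ S, Monitors G e a b

/-- The least size of an MEG set. -/
noncomputable def meg (G : SimpleGraph V) : ℕ :=
  sInf {k | ∃ S : Finset V, IsMEG G S ∧ S.card = k}

/-- The set of the mandatory vertices. -/
def Man (G : SimpleGraph V) : Set V := {v | ∀ S : Finset V, IsMEG G S → v ∈ S}

/-- The graph of a permutation `π`: for `i < j`, `i` and `j` are adjacent if `π i > π j`. -/
def permGraph {n : ℕ} (π : Equiv.Perm (Fin n)) : SimpleGraph (Fin n) where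
  Adj i j := (i < j ∧ π j < π i) ∨ (j < i ∧ π i < π j)
  symm := ⟨fun _ _ h => h.elim Or.inr Or.inl⟩
  loopless := ⟨fun i h => by rcases h with h | h <;> exact lt_irrefl i h.1⟩

/-- `G` is a permutation graph. -/
def IsPermGraph (G : SimpleGraph V) : Prop :=
  ∃ (n : ℕ) (π : Equiv.Perm (Fin n)), Nonempty (G ≃g permGraph π)

/-- The vertices are points `(x v, y v)` of the plane with different abscissas and different
ordinates, and adjacent if they are incomparable. -/
structure Rep (G : SimpleGraph V) (x y : V → ℤ) : Prop where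
  injx : Function.Injective x
  injy : Function.Injective y
  adj : ∀ u v, G.Adj u v ↔ (x u < x v ∧ y v < y u) ∨ (x v < x u ∧ y u < y v)

theorem Rep.neg {G : SimpleGraph V} {x y : V → ℤ} (h : Rep G x y) :
    Rep G (fun v => - x v) (fun v => - y v) := by
  refine ⟨fun u v e => h.injx (by simpa using e), fun u v e => h.injy (by simpa using e), ?_⟩
  intro u v
  rw [h.adj]
  simp only [neg_lt_neg_iff]
  tauto

theorem Rep.swap {G : SimpleGraph V} {x y : V → ℤ} (h : Rep G x y) : Rep G y x := by
  refine ⟨h.injy, h.injx, ?_⟩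
  intro u v
  rw [h.adj]
  tauto

theorem IsPermGraph.rep {G : SimpleGraph V} (h : IsPermGraph G) :
    ∃ x y : V → ℤ, Rep G x y := by
  obtain ⟨n, π, ⟨φ⟩⟩ := h
  refine ⟨fun v => ((φ v : Fin n) : ℕ), fun v => ((π (φ v) : Fin n) : ℕ), ?_, ?_, ?_⟩
  · intro u v e
    apply φ.injective
    apply Fin.ext
    simpa using e
  · intro u v e
    apply φ.injective
    apply π.injective
    apply Fin.ext
    simpa using e
  · intro u v
    rw [← φ.map_adj_iff]
    show ((φ u < φ v ∧ π (φ v) < π (φ u)) ∨ (φ v < φ u ∧ π (φ u) < π (φ v))) ↔ _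
    simp only [Fin.lt_def, Nat.cast_lt]

/-- There is a walk of length at most `k` from `w` to `a`. -/
def R (G : SimpleGraph V) (a : V) (k : ℕ) (w : V) : Prop := ∃ p : G.Walk w a, p.length ≤ k

theorem R_mono {G : SimpleGraph V} {a w : V} {k l : ℕ} (hkl : k ≤ l) (h : R G a k w) :
    R G a l w := by
  obtain ⟨p, hp⟩ := h
  exact ⟨p, hp.trans hkl⟩

theorem R_adj {G : SimpleGraph V} {a w v : V} {k : ℕ} (h : R G a k w) (hv : G.Adj v w) :
    R G a (k + 1) v := by
  obtain ⟨p, hp⟩ := h
  exact ⟨Walk.cons hv p, by simp only [Walk.length_cons]; omega⟩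

theorem R_step {G : SimpleGraph V} {a w : V} {k : ℕ} (h : R G a (k + 1) w) (hn : ¬ R G a k w) :
    ∃ v, R G a k v ∧ G.Adj w v := by
  obtain ⟨p, hp⟩ := h
  cases p with
  | nil => exact absurd ⟨Walk.nil, by simp⟩ hn
  | cons hv q =>
    refine ⟨_, ⟨q, ?_⟩, hv⟩
    simp only [Walk.length_cons] at hp
    omega

/-- A vertex between `a` and `v` is not farther from `a` than `v`. -/
theorem between {G : SimpleGraph V} {x y : V → ℤ} (hr : Rep G x y) {a v : V} (p : G.Walk v a)
    (w : V) (h1 : x a < x w) (h2 : y a < y w) (h3 : x w < x v) (h4 : y w < y v) :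
    ∃ q : G.Walk w a, q.length ≤ p.length := by
  induction p with
  | nil => omega
  | @cons v v' a hv q ih =>
    have hA := (hr.adj v v').1 hv
    by_cases hw : v' = w
    · subst hw
      exact ⟨q, by simp⟩
    · have hx : x v' ≠ x w := fun e => hw (hr.injx e)
      have hy : y v' ≠ y w := fun e => hw (hr.injy e)
      by_cases hadj : G.Adj w v'
      · exact ⟨Walk.cons hadj q, by simp⟩
      · rw [hr.adj] at hadj
        obtain ⟨q', hq'⟩ := ih h1 h2 (by omega) (by omega)
        exact ⟨q', by simp only [Walk.length_cons]; omega⟩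

theorem R_between {G : SimpleGraph V} {x y : V → ℤ} (hr : Rep G x y) {a v w : V} {k : ℕ}
    (h : R G a k v) (h1 : x a < x w) (h2 : y a < y w) (h3 : x w < x v) (h4 : y w < y v) :
    R G a k w := by
  obtain ⟨p, hp⟩ := h
  obtain ⟨q, hq⟩ := between hr p w h1 h2 h3 h4
  exact ⟨q, hq.trans hp⟩

theorem R_below {G : SimpleGraph V} {x y : V → ℤ} (hr : Rep G x y) {a p w : V} {k : ℕ}
    (hp : R G a k p) (h1 : x a < x w) (h2 : y a < y w) (hn : ¬ R G a (k + 1) w) :
    x p < x w ∧ y p < y w := by
  have hpw : p ≠ w := by
    rintro rfl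
    exact hn (R_mono (Nat.le_succ k) hp)
  have hx : x p ≠ x w := fun e => hpw (hr.injx e)
  have hy : y p ≠ y w := fun e => hpw (hr.injy e)
  have hadj : ¬ G.Adj w p := fun h => hn (R_adj hp h)
  rw [hr.adj] at hadj
  have hb : ¬ (x w < x p ∧ y w < y p) := by
    intro h
    exact hn (R_mono (Nat.le_succ k) (R_between hr hp h1 h2 h.1 h.2))
  omega

/-- The vertex `b` can be left out: for every neighbour `u` there is a neighbour `z` which is not
adjacent to `u`, and `b` is the only common neighbour of `u` and `z`. -/
def Free (G : SimpleGraph V) (b : V) : Prop :=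
  ∀ u, G.Adj u b → ∃ z, G.Adj b z ∧ z ≠ u ∧ ¬ G.Adj u z ∧ ∀ s, G.Adj u s → G.Adj s z → s = b

/-- The extension in the case where `b` is to the right of all vertices at smaller distance. -/
theorem extend_right [Finite V] {G : SimpleGraph V} {x y : V → ℤ} (hr : Rep G x y) {a b : V}
    {k : ℕ} {e : Sym2 V} (hax : x a < x b) (hay : y a < y b) (hb : R G a (k + 2) b)
    (hnb : ¬ R G a (k + 1) b) (hmon : ∀ p : G.Walk b a, p.length = k + 2 → e ∈ p.edges)
    (hfree : Free G b) (hA : ∀ p, R G a (k + 1) p → x p < x b) :
    ∃ z, G.Adj b z ∧ ¬ R G a (k + 2) z ∧ ∀ p : G.Walk z a, p.length = k + 3 → e ∈ p.edges := by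
  classical
  have hlow : ∀ p, R G a k p → x p < x b ∧ y p < y b := fun p hp => R_below hr hp hax hay hnb
  -- the highest vertex `Q` at distance at most `k + 1`
  obtain ⟨Q, hQ, hQmax⟩ := Set.exists_max_image {p | R G a (k + 1) p} y (Set.toFinite _)
    ⟨a, ⟨Walk.nil, by simp⟩⟩
  simp only [Set.mem_ofPred_eq] at hQ hQmax
  obtain ⟨p₀, hp₀, hadj₀⟩ := R_step hb hnb
  have hQb : y b < y Q := by
    have h1 := hA p₀ hp₀
    have h2 := (hr.adj b p₀).1 hadj₀
    have h3 := hQmax p₀ hp₀
    omega
  have hQx : x Q < x b := hA Q hQ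
  have hQadj : G.Adj Q b := (hr.adj Q b).2 (Or.inl ⟨hQx, hQb⟩)
  have hQk : ¬ R G a k Q := by
    intro h
    have := hlow Q h
    omega
  obtain ⟨p', hp', hadj'⟩ := R_step hQ hQk
  have hQne : ∀ p, R G a (k + 1) p → p ≠ Q → y p < y Q := by
    intro p hp hpQ
    have h1 := hQmax p hp
    have h2 : y p ≠ y Q := fun h => hpQ (hr.injy h)
    omega
  have hbne : ∀ p, R G a (k + 1) p → p ≠ b := by
    rintro p hp rfl
    exact hnb hp
  -- properties of the candidates
  have c1 : ∀ z, (G.Adj b z ∧ z ≠ Q ∧ ¬ G.Adj Q z ∧ ∀ s, G.Adj Q s → G.Adj s z → s = b) →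
      x Q < x z ∧ y Q < y z ∧ x z < x b := by
    rintro z ⟨h1, h2, h3, h4⟩
    have hx : x z ≠ x Q := fun h => h2 (hr.injx h)
    have hy : y z ≠ y Q := fun h => h2 (hr.injy h)
    rw [hr.adj] at h1 h3
    by_contra hcon
    have hz : x z < x Q ∧ y z < y Q ∧ y b < y z := by omega
    -- then `p'` is a common neighbour
    have h5 := hlow p' hp'
    have h6 := (hr.adj Q p').1 hadj'
    have h7 : G.Adj p' z := (hr.adj p' z).2 (by omega)
    exact hbne p' (R_mono (Nat.le_succ k) hp') (h4 p' hadj' h7)
  have c2 : ∀ z, (G.Adj b z ∧ z ≠ Q ∧ ¬ G.Adj Q z ∧ ∀ s, G.Adj Q s → G.Adj s z → s = b) →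
      ¬ R G a (k + 2) z := by
    intro z hz hR
    obtain ⟨h1, h2, h3⟩ := c1 z hz
    have hn : ¬ R G a (k + 1) z := by
      intro h
      have := hQmax z h
      omega
    obtain ⟨p, hp, hpz⟩ := R_step hR hn
    have h4 := hQmax p hp
    have h5 := (hr.adj z p).1 hpz
    have h6 : p ≠ Q := by
      rintro rfl
      exact hz.2.2.1 hpz.symm
    have h7 := hQne p hp h6
    have h8 : G.Adj Q p := (hr.adj Q p).2 (by omega)
    exact hbne p hp (hz.2.2.2 p h8 hpz.symm)
  obtain ⟨z₀, hz₀⟩ := hfree Q hQadj
  obtain ⟨z, hz, hzmax⟩ := Set.exists_max_image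
    {z | G.Adj b z ∧ z ≠ Q ∧ ¬ G.Adj Q z ∧ ∀ s, G.Adj Q s → G.Adj s z → s = b} y
    (Set.toFinite _) ⟨z₀, hz₀⟩
  simp only [Set.mem_ofPred_eq] at hz hzmax
  obtain ⟨z1, z2, z3⟩ := c1 z hz
  refine ⟨z, hz.1, c2 z hz, ?_⟩
  intro p hp
  cases p with
  | nil => simp at hp
  | @cons _ w _ hzw q =>
    simp only [Walk.length_cons] at hp
    have hq : q.length = k + 2 := by omega
    rw [Walk.edges_cons, List.mem_cons]
    right
    by_cases hwb : w = b
    · subst hwb
      exact hmon q hq
    by_contra hne
    -- `q` is a walk that avoids `e`; its next vertex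
    cases q with
    | nil => simp at hq
    | @cons _ p _ hwp q' =>
      simp only [Walk.length_cons] at hq
      have hq' : q'.length = k + 1 := by omega
      rw [Walk.edges_cons, List.mem_cons, not_or] at hne
      have hp1 : R G a (k + 1) p := ⟨q', hq'.le⟩
      have hwQ : w ≠ Q := by
        rintro rfl
        exact hz.2.2.1 hzw.symm
      have hQw : ¬ G.Adj Q w := fun h => hwb (hz.2.2.2 w h hzw.symm)
      have hxw : x w ≠ x Q := fun h => hwQ (hr.injx h)
      have hyw : y w ≠ y Q := fun h => hwQ (hr.injy h)
      have hpy := hQmax p hp1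
      have hpb := hbne p hp1
      have hpx := hA p hp1
      rw [hr.adj] at hQw
      have hzw' := (hr.adj z w).1 hzw
      have hwp' := (hr.adj w p).1 hwp
      rcases hzw' with hSE | hNW
      · -- `w` is to the right of and below `z`
        have h1 : y Q < y w := by omega
        have h2 : x w < x p := by omega
        have h3 : p ≠ Q := by
          rintro rfl
          omega
        have h4 := hQne p hp1 h3
        have h5 : G.Adj Q p := (hr.adj Q p).2 (by omega)
        have h6 : G.Adj p z := (hr.adj p z).2 (by omega)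
        exact hpb (hz.2.2.2 p h5 h6)
      · have h1 : x Q < x w := by omega
        have h2 : x w < x p := by omega
        have h3 : p ≠ Q := by
          rintro rfl
          omega
        by_cases hpadj : G.Adj b p
        · -- two different last edges
          have h4 := hmon (Walk.cons hpadj q') (by simp only [Walk.length_cons]; omega)
          rw [Walk.edges_cons, List.mem_cons] at h4
          have h5 : e = s(b, p) := h4.resolve_right hne.2
          obtain ⟨r, hrl⟩ := hQ
          have hrl' : r.length = k + 1 := by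
            by_contra hcon
            exact hQk ⟨r, by omega⟩
          have h6 := hmon (Walk.cons hQadj.symm r) (by simp only [Walk.length_cons]; omega)
          rw [Walk.edges_cons, List.mem_cons, h5] at h6
          rcases h6 with h6 | h6
          · rw [Sym2.eq_iff] at h6
            rcases h6 with ⟨_, h7⟩ | ⟨h7, h8⟩
            · exact h3 h7
            · rw [h7] at hQb
              omega
          · have h7 : b ∈ r.support := Walk.fst_mem_support_of_mem_edges r h6
            exact hnb ⟨r.dropUntil b h7, (Walk.length_dropUntil_le_length r h7).trans hrl'.le⟩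
        · have hxb : x p ≠ x b := fun h => hpb (hr.injx h)
          have hyb : y p ≠ y b := fun h => hpb (hr.injy h)
          rw [hr.adj] at hpadj
          have h4 : y p < y b := by omega
          have hwb' : G.Adj w b := (hr.adj w b).2 (by omega)
          obtain ⟨t, t1, t2, t3, t4⟩ := hfree w hwb'
          have htx : x t ≠ x w := fun h => t2 (hr.injx h)
          have hty : y t ≠ y w := fun h => t2 (hr.injy h)
          have t1' := (hr.adj b t).1 t1
          have t3' := t3
          rw [hr.adj] at t3'
          have h5 : x w < x t ∧ y w < y t := by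
            by_contra hcon
            have h6 : x t < x w ∧ y t < y w ∧ y b < y t := by omega
            have h7 : G.Adj p t := (hr.adj p t).2 (by omega)
            exact hpb (t4 p hwp h7)
          have hct : G.Adj b t ∧ t ≠ Q ∧ ¬ G.Adj Q t ∧
              ∀ s, G.Adj Q s → G.Adj s t → s = b := by
            refine ⟨t1, ?_, ?_, ?_⟩
            · rintro rfl
              omega
            · rw [hr.adj]
              omega
            · intro s hs1 hs2
              apply t4 s _ hs2
              rw [hr.adj] at hs1 hs2 ⊢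
              omega
          have := hzmax t hct
          omega

/-- The extension for `b` above and to the right of `a`. -/
theorem extend_up [Finite V] {G : SimpleGraph V} {x y : V → ℤ} (hr : Rep G x y) {a b : V}
    {k : ℕ} {e : Sym2 V} (hax : x a < x b) (hay : y a < y b) (hb : R G a (k + 2) b)
    (hnb : ¬ R G a (k + 1) b) (hmon : ∀ p : G.Walk b a, p.length = k + 2 → e ∈ p.edges)
    (hfree : Free G b) :
    ∃ z, G.Adj b z ∧ ¬ R G a (k + 2) z ∧ ∀ p : G.Walk z a, p.length = k + 3 → e ∈ p.edges := by
  by_cases hA : ∀ p, R G a (k + 1) p → x p < x b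
  · exact extend_right hr hax hay hb hnb hmon hfree hA
  by_cases hB : ∀ p, R G a (k + 1) p → y p < y b
  · exact extend_right hr.swap hay hax hb hnb hmon hfree hB
  exfalso
  push Not at hA hB
  obtain ⟨P, hP, hPx⟩ := hA
  obtain ⟨Q, hQ, hQy⟩ := hB
  have hPb : P ≠ b := by rintro rfl; exact hnb hP
  have hQb : Q ≠ b := by rintro rfl; exact hnb hQ
  have e1 : x P ≠ x b := fun h => hPb (hr.injx h)
  have e2 : y P ≠ y b := fun h => hPb (hr.injy h)
  have e3 : x Q ≠ x b := fun h => hQb (hr.injx h)
  have e4 : y Q ≠ y b := fun h => hQb (hr.injy h)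
  have h1 : ¬ (x b < x P ∧ y b < y P) := fun h => hnb (R_between hr hP hax hay h.1 h.2)
  have h2 : ¬ (x b < x Q ∧ y b < y Q) := fun h => hnb (R_between hr hQ hax hay h.1 h.2)
  have hPadj : G.Adj P b := (hr.adj P b).2 (by omega)
  obtain ⟨z, z1, z2, z3, z4⟩ := hfree P hPadj
  have hPQ : G.Adj P Q := (hr.adj P Q).2 (by omega)
  have z1' := (hr.adj b z).1 z1
  rw [hr.adj] at z3
  have hQz : G.Adj Q z := (hr.adj Q z).2 (by omega)
  exact hQb (z4 Q hPQ hQz)

/-- The extension: if `b` can be left out and all shortest walks between `b` and `a` contain `e`,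
then the same holds for a neighbour `z` of `b` at larger distance from `a`. -/
theorem extend [Finite V] {G : SimpleGraph V} {x y : V → ℤ} (hr : Rep G x y) {a b : V}
    {d : ℕ} {e : Sym2 V} (hb : R G a (d + 1) b)
    (hnb : ¬ R G a d b) (hmon : ∀ p : G.Walk b a, p.length = d + 1 → e ∈ p.edges)
    (hfree : Free G b) :
    ∃ z, G.Adj b z ∧ ¬ R G a (d + 1) z ∧ ∀ p : G.Walk z a, p.length = d + 2 → e ∈ p.edges := by
  have hab : a ≠ b := by
    rintro rfl
    exact hnb ⟨Walk.nil, by simp⟩
  have hx : x a ≠ x b := fun h => hab (hr.injx h)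
  have hy : y a ≠ y b := fun h => hab (hr.injy h)
  rcases d with _ | k
  · -- adjacent vertices
    obtain ⟨v, ⟨q, hq⟩, hv⟩ := R_step hb hnb
    have hva : v = a := by
      cases q with
      | nil => rfl
      | cons h q => simp at hq
    subst hva
    have he : e = s(b, v) := by
      have := hmon (Walk.cons hv Walk.nil) (by simp)
      simpa using this
    obtain ⟨z, z1, z2, z3, z4⟩ := hfree v hv.symm
    refine ⟨z, z1, ?_, ?_⟩
    · rintro ⟨p, hp⟩
      cases p with
      | nil => exact z2 rfl
      | cons h p =>
        cases p with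
        | nil => exact z3 h.symm
        | cons h' p => simp at hp
    · intro p hp
      cases p with
      | nil => simp at hp
      | cons h p =>
        cases p with
        | nil => simp at hp
        | cons h' p =>
          cases p with
          | nil =>
            have h5 := z4 _ h'.symm h.symm
            subst h5
            simp [he]
          | cons h'' p => simp at hp
  · have hnadj : ¬ G.Adj b a := by
      intro h
      exact hnb (R_mono (by omega) (R_adj (k := 0) ⟨Walk.nil, by simp⟩ h))
    rw [hr.adj] at hnadj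
    by_cases h1 : x a < x b
    · exact extend_up hr h1 (by omega) hb hnb hmon hfree
    · exact extend_up hr.neg (by simp only [neg_lt_neg_iff]; omega)
        (by simp only [neg_lt_neg_iff]; omega) hb hnb hmon hfree

/-- A walk that contains the edge `uv` can be split at this edge. -/
theorem split_edge {G : SimpleGraph V} {a b : V} (p : G.Walk a b) {u v : V}
    (h : s(u, v) ∈ p.edges) :
    (∃ (p₁ : G.Walk a u) (h : G.Adj u v) (p₂ : G.Walk v b), p = p₁.append (Walk.cons h p₂)) ∨
      ∃ (p₁ : G.Walk a v) (h : G.Adj v u) (p₂ : G.Walk u b), p = p₁.append (Walk.cons h p₂) := by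
  induction p with
  | nil => simp at h
  | @cons a c b hac q ih =>
    rw [Walk.edges_cons, List.mem_cons] at h
    rcases h with h | h
    · rw [Sym2.eq_iff] at h
      rcases h with ⟨rfl, rfl⟩ | ⟨rfl, rfl⟩
      · exact Or.inl ⟨Walk.nil, hac, q, rfl⟩
      · exact Or.inr ⟨Walk.nil, hac, q, rfl⟩
    · rcases ih h with ⟨p₁, h1, p₂, rfl⟩ | ⟨p₁, h1, p₂, rfl⟩
      · exact Or.inl ⟨Walk.cons hac p₁, h1, p₂, rfl⟩
      · exact Or.inr ⟨Walk.cons hac p₁, h1, p₂, rfl⟩

theorem middle {G : SimpleGraph V} {a c u b : V} (p₁ : G.Walk a u) (h : G.Adj u b)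
    (p₂ : G.Walk b c) (hlen : (p₁.append (Walk.cons h p₂)).length = G.dist a c)
    (hmon : ∀ p : G.Walk a c, p.length = G.dist a c → s(u, b) ∈ p.edges) (hb : b ≠ c) :
    ∃ z, G.Adj b z ∧ z ≠ u ∧ ¬ G.Adj u z ∧ ∀ s, G.Adj u s → G.Adj s z → s = b := by
  classical
  cases p₂ with
  | nil => exact absurd rfl hb
  | @cons _ z _ h2 p₃ =>
    simp only [Walk.length_append, Walk.length_cons] at hlen
    refine ⟨z, h2, ?_, ?_, ?_⟩
    · rintro rfl
      have := SimpleGraph.dist_le (p₁.append p₃)
      simp only [Walk.length_append] at this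
      omega
    · intro h3
      have := SimpleGraph.dist_le (p₁.append (Walk.cons h3 p₃))
      simp only [Walk.length_append, Walk.length_cons] at this
      omega
    · intro s hs hs'
      by_contra hsb
      have h3 := hmon (p₁.append (Walk.cons hs (Walk.cons hs' p₃)))
        (by simp only [Walk.length_append, Walk.length_cons]; omega)
      rw [Walk.edges_append, Walk.edges_cons, Walk.edges_cons, List.mem_append, List.mem_cons,
        List.mem_cons] at h3
      rcases h3 with h3 | h3 | h3 | h3
      · have h4 : b ∈ p₁.support := Walk.snd_mem_support_of_mem_edges p₁ h3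
        have h5 := SimpleGraph.dist_le ((p₁.takeUntil b h4).append (Walk.cons h2 p₃))
        have h6 := Walk.length_takeUntil_le_length p₁ h4
        simp only [Walk.length_append, Walk.length_cons] at h5
        omega
      · rw [Sym2.eq_iff] at h3
        rcases h3 with ⟨_, h3⟩ | ⟨h3, _⟩
        · exact hsb h3.symm
        · rw [h3] at hs
          exact G.irrefl hs
      · rw [Sym2.eq_iff] at h3
        rcases h3 with ⟨h3, _⟩ | ⟨_, h3⟩
        · rw [h3] at hs
          exact G.irrefl hs
        · exact hsb h3.symm
      · have h4 : u ∈ p₃.support := Walk.fst_mem_support_of_mem_edges p₃ h3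
        have h5 := SimpleGraph.dist_le (p₁.append (p₃.dropUntil u h4))
        have h6 := Walk.length_dropUntil_le_length p₃ h4
        simp only [Walk.length_append] at h5
        omega

theorem Monitors.symm {G : SimpleGraph V} {e : Sym2 V} {a b : V} (h : Monitors G e a b) :
    Monitors G e b a := by
  refine ⟨h.1.symm, fun p hp => ?_⟩
  have := h.2 p.reverse (by rw [Walk.length_reverse, hp, SimpleGraph.dist_comm])
  rwa [Walk.edges_reverse, List.mem_reverse] at this

/-- A vertex that is not mandatory can be left out. -/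
theorem free_of_notMem_man {G : SimpleGraph V} {b : V} (hb : b ∉ Man G) : Free G b := by
  intro u hu
  simp only [Man, Set.mem_ofPred_eq, not_forall] at hb
  obtain ⟨S, hS, hbS⟩ := hb
  obtain ⟨a, ha, c, hc, hm⟩ := hS s(u, b) ((SimpleGraph.mem_edgeSet G).2 hu)
  obtain ⟨p, hp⟩ := hm.1.exists_walk_length_eq_dist
  rcases split_edge p (hm.2 p hp) with ⟨p₁, h1, p₂, rfl⟩ | ⟨p₁, h1, p₂, rfl⟩
  · exact middle p₁ h1 p₂ hp hm.2 (by rintro rfl; exact hbS hc)
  · refine middle p₂.reverse h1.symm p₁.reverse ?_ hm.symm.2 (by rintro rfl; exact hbS ha)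
    rw [SimpleGraph.dist_comm, ← hp]
    simp only [Walk.length_append, Walk.length_cons, Walk.length_reverse]
    omega

/-- If the distance of `a` and `b` is maximal among the pairs that monitor `e`, then `b` is
mandatory. -/
theorem mem_man_of_max [Finite V] {G : SimpleGraph V} (hG : IsPermGraph G) {e : Sym2 V} {a b : V}
    (h : Monitors G e a b) (hmax : ∀ z, Monitors G e a z → G.dist a z ≤ G.dist a b) :
    b ∈ Man G := by
  by_contra hb
  obtain ⟨x, y, hr⟩ := hG.rep
  have hfree := free_of_notMem_man hb
  obtain ⟨p, hp⟩ := h.symm.1.exists_walk_length_eq_dist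
  have hpe := h.symm.2 p hp
  rw [SimpleGraph.dist_comm] at hp
  obtain ⟨d, hd⟩ : ∃ d, G.dist a b = d + 1 := by
    rcases Nat.eq_zero_or_pos (G.dist a b) with h0 | h0
    · exfalso
      rw [h0, ← Walk.length_edges, List.length_eq_zero_iff] at hp
      rw [hp] at hpe
      simp at hpe
    · exact ⟨G.dist a b - 1, by omega⟩
  obtain ⟨z, hz, hzR, hzm⟩ := extend (a := a) (b := b) (d := d) (e := e) hr ⟨p, by omega⟩
    (by
      rintro ⟨q, hq⟩
      have := SimpleGraph.dist_le q
      rw [SimpleGraph.dist_comm] at this
      omega)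
    (fun q hq => h.symm.2 q (by rw [hq, SimpleGraph.dist_comm, hd])) hfree
  have hdz : G.dist z a = d + 2 := by
    apply le_antisymm
    · have := SimpleGraph.dist_le (Walk.cons hz.symm p)
      simp only [Walk.length_cons] at this
      omega
    · by_contra hcon
      have hreach : G.Reachable z a := ⟨Walk.cons hz.symm p⟩
      obtain ⟨q, hq⟩ := hreach.exists_walk_length_eq_dist
      exact hzR ⟨q, by omega⟩
  have hmz : Monitors G e z a := by
    refine ⟨⟨Walk.cons hz.symm p⟩, fun q hq => hzm q (by rw [hq, hdz])⟩
  have := hmax z hmz.symm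
  rw [SimpleGraph.dist_comm, hdz] at this
  omega

/-- In a permutation graph every edge is monitored by two mandatory vertices. -/
theorem man_isMEG [Finite V] {G : SimpleGraph V} (hG : IsPermGraph G) :
    ∀ e ∈ G.edgeSet, ∃ a ∈ Man G, ∃ b ∈ Man G, Monitors G e a b := by
  intro e he
  have hne : ∃ q : V × V, Monitors G e q.1 q.2 := by
    induction e using Sym2.ind with
    | _ u v =>
      have huv : G.Adj u v := he
      refine ⟨(u, v), ⟨Walk.cons huv Walk.nil⟩, fun p hp => ?_⟩
      have h1 : G.dist u v = 1 := SimpleGraph.dist_eq_one_iff_adj.2 huv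
      rw [h1] at hp
      cases p with
      | nil => simp at hp
      | cons h q =>
        cases q with
        | nil => simp
        | cons h' q => simp at hp
  obtain ⟨q, hq, hqmax⟩ := Set.exists_max_image {q : V × V | Monitors G e q.1 q.2}
    (fun q => G.dist q.1 q.2) (Set.toFinite _) hne
  simp only [Set.mem_ofPred_eq] at hq hqmax
  refine ⟨q.1, ?_, q.2, ?_, hq⟩
  · apply mem_man_of_max hG hq.symm
    intro z hz
    have := hqmax (q.2, z) hz
    simp only at this
    rw [SimpleGraph.dist_comm (u := q.2) (v := q.1)]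
    exact this
  · apply mem_man_of_max hG hq
    intro z hz
    exact hqmax (q.1, z) hz

/-- **Mandatory vertices and optimal MEG sets in permutation graphs.**  In every permutation graph
the number of the mandatory vertices is the least size of an MEG set, and the mandatory vertices
form an MEG set. -/
theorem result {V : Type*} [Finite V] (G : SimpleGraph V) (hG : IsPermGraph G) :
    (Man G).ncard = meg G ∧ ∀ e ∈ G.edgeSet, ∃ a ∈ Man G, ∃ b ∈ Man G, Monitors G e a b := by
  classical
  refine ⟨?_, man_isMEG hG⟩
  have hfin : (Man G).Finite := Set.toFinite _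
  have hS : IsMEG G hfin.toFinset := by
    intro e he
    obtain ⟨a, ha, b, hb, h⟩ := man_isMEG hG e he
    exact ⟨a, hfin.mem_toFinset.2 ha, b, hfin.mem_toFinset.2 hb, h⟩
  rw [Set.ncard_eq_toFinset_card _ hfin]
  apply le_antisymm
  · refine le_csInf ⟨_, hfin.toFinset, hS, rfl⟩ ?_
    rintro k ⟨S, hS', rfl⟩
    apply Finset.card_le_card
    intro v hv
    exact hfin.mem_toFinset.1 hv S hS'
  · exact Nat.sInf_le ⟨hfin.toFinset, hS, rfl⟩

end Pool.Agent.Results.MP_8e9d7b_co.MandatoryVertices
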